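import Pool.Agent.Helper58.OL.Def

/-!
# HO: rational functions of degree zero are quotients of homogeneous elements
-/

set_option autoImplicit false
set_option linter.unusedSectionVars false

open Polynomial Finset DirectSum

namespace Pool.Agent.Helper68.OLB

open Pool.Agent.Helper766_CF Pool.Agent.Helper766_CG Pool.Agent.Helper766_CH
open Pool.Agent.Helper58.CS Pool.Agent.Helper58.OP Pool.Agent.Helper58.SH Pool.Agent.Helper58.BG
open Pool.Agent.Helper58.LC Pool.Agent.Helper58.NS Pool.Agent.Helper58.DP Pool.Agent.Helper58.OL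

variable {R : Type} [CommRing R] [Algebra ℂ R] {𝒜 : ℕ → Submodule ℂ R} [GradedAlgebra 𝒜]
  {br : R →ₗ[ℂ] R →ₗ[ℂ] R}

lemma pr_euler (r : R) (n : ℕ) : pr 𝒜 n (euler 𝒜 r) = (n : ℂ) • pr 𝒜 n r := by
  refine hom_induction 𝒜 (P := fun r => pr 𝒜 n (euler 𝒜 r) = (n : ℂ) • pr 𝒜 n r) r ?_ ?_ ?_
  · simp
  · intro i a ha
    rw [euler_of_mem 𝒜 ha, map_smul, pr_of_mem_ite 𝒜 ha]
    split_ifs with h
    · rw [h]
    · rw [smul_zero, smul_zero]
  · intro a b ha hb
    rw [map_add, map_add, map_add, ha, hb, smul_add]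

lemma gr_euler (r : R) : gr 𝒜 (euler 𝒜 r) = X * derivative (gr 𝒜 r) := by
  ext n
  rw [coeff_gr, pr_euler]
  rcases n with _ | n
  · simp
  · rw [coeff_X_mul, coeff_derivative, coeff_gr, Algebra.smul_def]
    simp [mul_comm]

lemma gr_ne_zero {r : R} (hr : r ≠ 0) : gr 𝒜 r ≠ 0 := by
  intro h
  apply hr
  rw [← eval_one_gr 𝒜 r, h, eval_zero]

lemma eigen_const [IsDomain R] {a l : R} (ha : a ≠ 0) (h : euler 𝒜 a = l * a) : l ∈ 𝒜 0 := by
  by_cases hl : l = 0
  · rw [hl]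
    exact Submodule.zero_mem _
  have h1 : gr 𝒜 l * gr 𝒜 a = X * derivative (gr 𝒜 a) := by
    rw [← map_mul, ← h, gr_euler]
  have h2 := natDegree_mul (gr_ne_zero (𝒜 := 𝒜) hl) (gr_ne_zero (𝒜 := 𝒜) ha)
  have h3 : (X * derivative (gr 𝒜 a)).natDegree ≤ (gr 𝒜 a).natDegree := by
    by_cases h0 : (gr 𝒜 a).natDegree = 0
    · rw [derivative_of_natDegree_zero h0, mul_zero, natDegree_zero]
      exact Nat.zero_le _
    · have h4 := natDegree_derivative_lt h0
      have h5 := natDegree_mul_le (p := (X : R[X])) (q := derivative (gr 𝒜 a))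
      rw [natDegree_X] at h5
      omega
  rw [h1] at h2
  have h6 : (gr 𝒜 l).natDegree = 0 := by omega
  have h7 := eq_C_of_natDegree_eq_zero h6
  have h8 := eval_one_gr 𝒜 l
  rw [h7, eval_C, coeff_gr] at h8
  rw [← h8]
  exact pr_mem 𝒜 0 l

lemma eigen_mem {x : R} {c : ℂ} (hx : x ≠ 0) (h : euler 𝒜 x = c • x) :
    ∃ d : ℕ, c = d ∧ x ∈ 𝒜 d := by
  have h1 : ∀ n : ℕ, ((n : ℂ) - c) • pr 𝒜 n x = 0 := by
    intro n
    have := pr_euler (𝒜 := 𝒜) x n
    rw [h, map_smul] at this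
    rw [sub_smul, ← this, sub_self]
  obtain ⟨d, hd⟩ : ∃ d : ℕ, pr 𝒜 d x ≠ 0 := by
    by_contra hcon
    push Not at hcon
    apply hx
    exact ext_pr 𝒜 fun i => by rw [hcon i, map_zero]
  have hc : c = d := by
    rcases smul_eq_zero.1 (h1 d) with h2 | h2
    · exact (sub_eq_zero.1 h2).symm
    · exact absurd h2 hd
  refine ⟨d, hc, ?_⟩
  have h3 : x = pr 𝒜 d x := by
    refine ext_pr 𝒜 fun i => ?_
    rw [pr_of_mem_ite 𝒜 (pr_mem 𝒜 d x)]
    split_ifs with h4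
    · rw [h4]
    · rcases smul_eq_zero.1 (h1 i) with h5 | h5
      · rw [hc] at h5
        have h6 : (i : ℂ) = (d : ℂ) := sub_eq_zero.1 h5
        exact absurd (by exact_mod_cast h6.symm) h4
      · exact h5
  rw [h3]
  exact pr_mem 𝒜 d x

theorem homog [IsDomain R] [UniqueFactorizationMonoid R] (C : Core 𝒜 br) {a b : R} (hb : b ≠ 0)
    (hnc : ∀ c : ℂ, a ≠ c • b) (heu : b * euler 𝒜 a = a * euler 𝒜 b) :
    ∃ d, 0 < d ∧ ∃ a' ∈ 𝒜 d, ∃ b' ∈ 𝒜 d, b' ≠ 0 ∧ (∀ p, Prime p → p ∣ a' → ¬ p ∣ b') ∧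
      a * b' = b * a' := by
  obtain ⟨a', b', g, hrel, hga, hgb⟩ := UniqueFactorizationMonoid.exists_reduced_factors' a b hb
  have hg : g ≠ 0 := by
    rintro rfl
    rw [zero_mul] at hgb
    exact hb hgb.symm
  have hb' : b' ≠ 0 := by
    rintro rfl
    rw [mul_zero] at hgb
    exact hb hgb.symm
  have h1 : b' * euler 𝒜 a' = a' * euler 𝒜 b' := by
    rw [← hga, ← hgb, Derivation.leibniz, Derivation.leibniz] at heu
    simp only [smul_eq_mul] at heu
    have h2 : (g * g) * (b' * euler 𝒜 a') = (g * g) * (a' * euler 𝒜 b') := by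
      linear_combination heu
    exact mul_left_cancel₀ (mul_ne_zero hg hg) h2
  have ha0 : a' ≠ 0 := by
    rintro rfl
    apply hnc 0
    rw [← hga, mul_zero, zero_smul]
  obtain ⟨l, hl⟩ : a' ∣ euler 𝒜 a' := hrel.dvd_of_dvd_mul_left ⟨_, h1⟩
  have hl1 : euler 𝒜 a' = l * a' := by rw [hl, mul_comm]
  have hl2 : euler 𝒜 b' = l * b' := by
    have h2 : a' * euler 𝒜 b' = a' * (l * b') := by
      rw [← h1, hl1]
      ring
    exact mul_left_cancel₀ ha0 h2
  obtain ⟨c, hc⟩ := C.const l (eigen_const ha0 hl1)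
  rw [hc, ← Algebra.smul_def] at hl1 hl2
  obtain ⟨d, hd, had⟩ := eigen_mem ha0 hl1
  obtain ⟨d', hd', hbd⟩ := eigen_mem hb' hl2
  have hdd : d' = d := by
    rw [hd] at hd'
    exact_mod_cast hd'.symm
  rw [hdd] at hbd
  refine ⟨d, ?_, a', had, b', hbd, hb', ?_, ?_⟩
  · rcases Nat.eq_zero_or_pos d with h0 | h0
    · exfalso
      rw [h0] at had hbd
      obtain ⟨α, hα⟩ := C.const a' had
      obtain ⟨β, hβ⟩ := C.const b' hbd
      have hβ0 : β ≠ 0 := by
        rintro rfl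
        rw [map_zero] at hβ
        exact hb' hβ
      apply hnc (α / β)
      rw [← hga, ← hgb, hα, hβ, Algebra.smul_def]
      have : algebraMap ℂ R α = algebraMap ℂ R (α / β) * algebraMap ℂ R β := by
        rw [← map_mul, div_mul_cancel₀ _ hβ0]
      rw [this]
      ring
    · exact h0
  · intro p hp h2 h3
    exact hp.not_unit (hrel h2 h3)
  · rw [← hga, ← hgb]
    ring

end Pool.Agent.Helper68.OLB
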